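import Pool.Agent.Helper10.RS.Goals

/-!
# Project RS (MP_82322d_al), packet QUO: regular elements and quotients
-/

namespace Pool.Agent.Helper24.RS

open Pool.Agent.Helper10.RS

universe u

variable {G : Type u} [Group G] (N : Subgroup G) [N.Normal] {p : ℕ}

/-- The image of a regular element is regular. -/
theorem reg_mk {g : G} (hg : ¬ p ∣ orderOf g) : ¬ p ∣ orderOf (g : G ⧸ N) := by
  intro h
  exact hg (h.trans (orderOf_map_dvd (QuotientGroup.mk' N) g))

/-- If the order of the kernel is prime to `p`, preimages of regular elements are regular. -/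
theorem reg_of_mk (hp : p.Prime) (hN : ¬ p ∣ Nat.card N) {g : G}
    (hg : ¬ p ∣ orderOf (g : G ⧸ N)) : ¬ p ∣ orderOf g := by
  intro h
  have h1 : g ^ orderOf (g : G ⧸ N) ∈ N := by
    rw [← QuotientGroup.eq_one_iff, QuotientGroup.mk_pow, pow_orderOf_eq_one]
  have h3 : g ^ (orderOf (g : G ⧸ N) * Nat.card N) = 1 := by
    rw [pow_mul]
    have h4 := pow_card_eq_one' (x := (⟨_, h1⟩ : N))
    exact congrArg Subtype.val h4
  have h6 := h.trans (orderOf_dvd_of_pow_eq_one h3)
  rcases hp.dvd_mul.1 h6 with h7 | h7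
  · exact hg h7
  · exact hN h7

/-- The number of regular elements is at most `|N|` times the number of the regular elements of
the quotient. -/
theorem reg_le [Finite G] : reg G p ≤ reg (G ⧸ N) p * Nat.card N := by
  unfold reg
  rw [← Nat.card_prod]
  have hm : ∀ g : G, ((g : G ⧸ N).out)⁻¹ * g ∈ N := by
    intro g
    rw [← QuotientGroup.eq, QuotientGroup.out_eq']
  let f : {g : G // ¬ p ∣ orderOf g} → {x : G ⧸ N // ¬ p ∣ orderOf x} × N :=
    fun g => (⟨(g.1 : G ⧸ N), reg_mk N g.2⟩, ⟨((g.1 : G ⧸ N).out)⁻¹ * g.1, hm g.1⟩)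
  apply Nat.card_le_card_of_injective f
  intro a b hab
  have h1 : (a.1 : G ⧸ N) = (b.1 : G ⧸ N) := congrArg (fun x => (x.1 : G ⧸ N)) hab
  have h2 : ((a.1 : G ⧸ N).out)⁻¹ * a.1 = ((b.1 : G ⧸ N).out)⁻¹ * b.1 :=
    congrArg (fun x => (x.2 : G)) hab
  rw [h1] at h2
  exact Subtype.ext (mul_left_cancel h2)

/-- The converse if the order of the kernel is prime to `p`. -/
theorem reg_ge [Finite G] (hp : p.Prime) (hN : ¬ p ∣ Nat.card N) :
    reg (G ⧸ N) p * Nat.card N ≤ reg G p := by
  unfold reg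
  rw [← Nat.card_prod]
  have hm : ∀ (x : G ⧸ N) (n : N), ((x.out * n.1 : G) : G ⧸ N) = x := by
    intro x n
    rw [QuotientGroup.mk_mul_of_mem _ n.2, QuotientGroup.out_eq']
  let f : {x : G ⧸ N // ¬ p ∣ orderOf x} × N → {g : G // ¬ p ∣ orderOf g} :=
    fun x => ⟨x.1.1.out * x.2.1, reg_of_mk N hp hN (by rw [hm]; exact x.1.2)⟩
  apply Nat.card_le_card_of_injective f
  rintro ⟨⟨x, hx⟩, m⟩ ⟨⟨y, hy⟩, n⟩ hab
  have h0 : x.out * m.1 = y.out * n.1 := congrArg (fun z => (z.1 : G)) hab
  have h1 : x = y := by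
    rw [← hm x m, ← hm y n, h0]
  subst h1
  have h2 : m = n := Subtype.ext (mul_left_cancel h0)
  subst h2
  rfl

omit [N.Normal] in
theorem card_eq_mul : Nat.card G = Nat.card (G ⧸ N) * Nat.card N :=
  Subgroup.card_eq_card_quotient_mul_card_subgroup N

theorem p_quo : QUO.{u} := by
  intro G _ _ N _ p hp
  have hc := card_eq_mul N
  refine ⟨?_, ?_, ?_⟩
  · calc reg G p * Nat.card (G ⧸ N) ≤ reg (G ⧸ N) p * Nat.card N * Nat.card (G ⧸ N) :=
          Nat.mul_le_mul_right _ (reg_le N)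
      _ = reg (G ⧸ N) p * Nat.card G := by rw [hc]; ring
  · intro hN
    have h1 : reg G p = reg (G ⧸ N) p * Nat.card N := le_antisymm (reg_le N) (reg_ge N hp hN)
    rw [h1, hc]
    ring
  · intro h
    have h1 : reg G p ≤ Nat.card N := by
      unfold reg
      have hm : ∀ g : {g : G // ¬ p ∣ orderOf g}, g.1 ∈ N := by
        rintro ⟨g, hg⟩
        have h2 : orderOf (g : G ⧸ N) ∣ p := by
          rw [← h]
          exact orderOf_dvd_natCard _
        rcases (Nat.dvd_prime hp).1 h2 with h3 | h3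
        · rw [orderOf_eq_one_iff] at h3
          exact (QuotientGroup.eq_one_iff g).1 h3
        · exact absurd (h3 ▸ dvd_refl p) (reg_mk N hg)
      apply Nat.card_le_card_of_injective (fun g => (⟨g.1, hm g⟩ : N))
      intro a b hab
      exact Subtype.ext (congrArg (fun z => (z.1 : G)) hab)
    rw [hc, h, mul_comm]
    exact Nat.mul_le_mul_left _ h1

end Pool.Agent.Helper24.RS
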