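import Pool.Agent.Helper38.RS.Goals3

/-!
# Packet RS-LSM: the sum of `house α ^ (-r)` over nonzero algebraic integers converges
-/

namespace Pool.Agent.Helper24.RS

open NumberField Module

open scoped Classical

theorem norm_mixed_le {F : Type} [Field F] [NumberField F] (x : F) :
    ‖mixedEmbedding F x‖ ≤ house x := by
  rw [Prod.norm_def]
  refine max_le ?_ ?_
  · refine (pi_norm_le_iff_of_nonneg (house_nonneg x)).2 fun w ↦ ?_
    have h := norm_embedding_le_house x w.1.embedding
    have h2 : ‖(mixedEmbedding F x).1 w‖ = ‖w.1.embedding x‖ := by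
      have h3 : (mixedEmbedding F x).1 w = InfinitePlace.embedding_of_isReal w.2 x := by
        simp [mixedEmbedding]
      rw [h3, ← InfinitePlace.embedding_of_isReal_apply w.2 x, Complex.norm_real]
    rw [h2]
    exact h
  · refine (pi_norm_le_iff_of_nonneg (house_nonneg x)).2 fun w ↦ ?_
    have h := norm_embedding_le_house x w.1.embedding
    exact h

theorem s_lsm : Pool.Agent.Helper38.RS.S_LSM := by
  intro F _ _ r hr
  have hr0 : 0 < r := lt_of_le_of_lt (Nat.cast_nonneg _) hr
  have hfr : Module.finrank ℤ (mixedEmbedding.integerLattice F) = finrank ℚ F := by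
    rw [ZLattice.rank ℝ, mixedEmbedding.finrank]
  have hs : Summable fun z : mixedEmbedding.integerLattice F ↦ ‖z‖ ^ (-r) := by
    apply ZLattice.summable_norm_rpow
    rw [hfr]
    linarith
  let e : {α : 𝓞 F // α ≠ 0} → mixedEmbedding.integerLattice F := fun α ↦
    ⟨mixedEmbedding F ((α.1 : 𝓞 F) : F), ⟨α.1, rfl⟩⟩
  have he : Function.Injective e := by
    intro a b hab
    have h1 : mixedEmbedding F ((a.1 : 𝓞 F) : F) = mixedEmbedding F ((b.1 : 𝓞 F) : F) :=
      congrArg Subtype.val hab
    have h2 := mixedEmbedding_injective F h1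
    exact Subtype.ext (RingOfIntegers.ext h2)
  have hs2 := hs.comp_injective he
  refine Summable.of_nonneg_of_le (fun α ↦ Real.rpow_nonneg (house_nonneg _) _) (fun α ↦ ?_) hs2
  have hne : ((α.1 : 𝓞 F) : F) ≠ 0 := by
    intro h
    exact α.2 (RingOfIntegers.ext h)
  have hpos : 0 < ‖mixedEmbedding F ((α.1 : 𝓞 F) : F)‖ := by
    rw [norm_pos_iff]
    intro h
    apply hne
    apply mixedEmbedding_injective F
    rw [h, map_zero]
  have h3 := norm_mixed_le ((α.1 : 𝓞 F) : F)
  have h4 : ‖e α‖ = ‖mixedEmbedding F ((α.1 : 𝓞 F) : F)‖ := rfl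
  show house ((α.1 : 𝓞 F) : F) ^ (-r) ≤ ‖e α‖ ^ (-r)
  rw [h4]
  exact Real.rpow_le_rpow_of_nonpos hpos h3 (by linarith)

end Pool.Agent.Helper24.RS
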